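import Mathlib
import Pool.Agent.Lib.MP_70b2ae_gt.BgGeo

namespace Pool.Agent.Variants.MP_70b2ae_gt.AffinePlank

open Pool.Agent.Lib.MP_70b2ae_gt

/-- The width of `C` along the functional `x ↦ ⟪a, x⟫`: the largest value of `⟪a, p - q⟫` for
points `p`, `q` of `C`. -/
noncomputable def width {d : ℕ} (C : Set (EuclideanSpace ℝ (Fin d)))
    (a : EuclideanSpace ℝ (Fin d)) : ℝ :=
  sSup {r : ℝ | ∃ p ∈ C, ∃ q ∈ C, r = inner ℝ a (p - q)}

/-- If planks `l i ≤ ⟪a i, x⟫ ≤ u i` cover a convex body `C`, then the sum of their relative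
widths is at least `1`. -/
theorem result (d : ℕ) (C : Set (EuclideanSpace ℝ (Fin d))) (hC : IsCompact C)
    (hc : Convex ℝ C) (hi : (interior C).Nonempty) (n : ℕ)
    (a : Fin n → EuclideanSpace ℝ (Fin d)) (ha : ∀ i, a i ≠ 0) (l u : Fin n → ℝ)
    (hlu : ∀ i, l i < u i)
    (hcov : ∀ x ∈ C, ∃ i, l i ≤ inner ℝ (a i) x ∧ inner ℝ (a i) x ≤ u i) :
    1 ≤ ∑ i, (u i - l i) / width C (a i) := by
  have hne : C.Nonempty := hi.mono interior_subset
  have hK : ∀ i, IsCompact {r : ℝ | ∃ p ∈ C, ∃ q ∈ C, r = inner ℝ (a i) (p - q)} := fun i => by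
    have h1 : {r : ℝ | ∃ p ∈ C, ∃ q ∈ C, r = inner ℝ (a i) (p - q)}
        = (fun z : EuclideanSpace ℝ (Fin d) × EuclideanSpace ℝ (Fin d) =>
          inner ℝ (a i) (z.1 - z.2)) '' (C ×ˢ C) := by
      ext r
      constructor
      · rintro ⟨p, hp, q, hq, rfl⟩
        exact ⟨(p, q), ⟨hp, hq⟩, rfl⟩
      · rintro ⟨z, hz, rfl⟩
        exact ⟨z.1, hz.1, z.2, hz.2, rfl⟩
    rw [h1]
    exact (hC.prod hC).image (by fun_prop)
  have hatt : ∀ i, ∃ p ∈ C, ∃ q ∈ C, width C (a i) = inner ℝ (a i) (p - q) := fun i => by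
    obtain ⟨x, hx⟩ := hne
    exact (hK i).sSup_mem ⟨_, x, hx, x, hx, rfl⟩
  have hw : ∀ i, 0 < width C (a i) := fun i => by
    obtain ⟨x, hx⟩ := hi
    have h1 : Filter.Tendsto (fun t : ℝ => x + t • a i) (nhds 0) (nhds (x + (0 : ℝ) • a i)) :=
      (by fun_prop : Continuous fun t : ℝ => x + t • a i).tendsto 0
    rw [zero_smul, add_zero] at h1
    have h2 : ∀ᶠ t : ℝ in nhdsWithin 0 (Set.Ioi 0), x + t • a i ∈ C :=
      (h1.eventually (mem_interior_iff_mem_nhds.1 hx)).filter_mono nhdsWithin_le_nhds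
    obtain ⟨t, ht, t0⟩ := (h2.and self_mem_nhdsWithin).exists
    refine lt_of_lt_of_le ?_ (le_csSup (hK i).bddAbove ⟨_, ht, x, interior_subset hx, rfl⟩)
    rw [add_sub_cancel_left, inner_smul_right]
    exact mul_pos t0 (real_inner_self_pos.2 (ha i))
  choose p hp q hq hpq using hatt
  by_contra hlt
  have hS1 := not_le.1 hlt
  have hS0 : 0 ≤ ∑ i, (u i - l i) / width C (a i) :=
    Finset.sum_nonneg fun i _ => div_nonneg (sub_pos.2 (hlu i)).le (hw i).le
  obtain ⟨θ, hθ, hθS⟩ : ∃ θ : ℝ, 1 < θ ∧ θ * ∑ i, (u i - l i) / width C (a i) < 1 := by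
    generalize ∑ i, (u i - l i) / width C (a i) = S at hS0 hS1
    refine ⟨2 / (1 + S), ?_, ?_⟩
    · rw [lt_div_iff₀ (by linarith)]
      linarith
    · rw [div_mul_eq_mul_div, div_lt_one (by linarith)]
      linarith
  have hd : ∀ i, 0 < θ * (u i - l i) / 2 := fun i => by
    have := sub_pos.2 (hlu i)
    positivity
  let y : EuclideanSpace ℝ (Fin d) → Fin n → ℝ := fun x i =>
    (inner ℝ (a i) x - (l i + u i) / 2) / (θ * (u i - l i) / 2)
  have hy : ∀ i, y (p i) i - y (q i) i = width C (a i) / (θ * (u i - l i) / 2) := fun i => by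
    simp only [y]
    rw [hpq, inner_sub_right]
    ring
  have h := Bg.bang (y '' C) (hC.image (by fun_prop)) ?_ (hne.image _) ?_ (fun i => y (p i))
    (fun i => y (q i)) (fun i => ⟨_, hp i, rfl⟩) (fun i => ⟨_, hq i, rfl⟩)
    fun i => sub_pos.1 (by rw [hy]; exact div_pos (hw i) (hd i))
  · have e : ∑ i, 2 / (y (p i) i - y (q i) i) = θ * ∑ i, (u i - l i) / width C (a i) := by
      rw [Finset.mul_sum]
      refine Finset.sum_congr rfl fun i _ => ?_
      have h1 := (hw i).ne'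
      have h2 := (sub_pos.2 (hlu i)).ne'
      have h3 : θ ≠ 0 := by linarith
      rw [hy]
      field_simp
    linarith
  · rintro _ ⟨x, hx, rfl⟩ _ ⟨z, hz, rfl⟩ s t hs ht hst
    refine ⟨s • x + t • z, hc hx hz hs ht hst, funext fun i => ?_⟩
    simp only [y, inner_add_right, inner_smul_right, Pi.add_apply, Pi.smul_apply, smul_eq_mul]
    rw [show t = 1 - s by linarith]
    ring
  · rintro _ ⟨x, hx, rfl⟩
    obtain ⟨i, h1, h2⟩ := hcov x hx
    refine ⟨i, ?_⟩
    have h3 := mul_lt_mul_of_pos_right hθ (sub_pos.2 (hlu i))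
    simp only [y]
    rw [abs_div, abs_of_pos (hd i), div_lt_one (hd i), abs_lt]
    constructor <;> linarith

end Pool.Agent.Variants.MP_70b2ae_gt.AffinePlank
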