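import Mathlib
import Pool.Agent.Lib.MP_70b2ae_gt.H76Main

namespace Pool.Agent.Variants.MP_70b2ae_gt.CubeRoot

open Pool.Agent.Lib.MP_70b2ae_gt

/-- The width of `C` along the functional `x ↦ ⟪a, x⟫`: the largest value of `⟪a, p - q⟫` for
points `p`, `q` of `C`. -/
noncomputable def width {d : ℕ} (C : Set (EuclideanSpace ℝ (Fin d)))
    (a : EuclideanSpace ℝ (Fin d)) : ℝ :=
  sSup {r : ℝ | ∃ p ∈ C, ∃ q ∈ C, r = inner ℝ a (p - q)}

/-- If planks `l i ≤ ⟪a i, x⟫ ≤ u i` cover a compact convex set `C` in dimension `d`, then the sum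
of their relative widths is at least `1 / (60 (d log (2 d)) ^ (1 / 3))`. -/
theorem result (d : ℕ) (hd : 1 ≤ d) (C : Set (EuclideanSpace ℝ (Fin d))) (hC : IsCompact C)
    (hc : Convex ℝ C) (hne : C.Nonempty) (n : ℕ) (a : Fin n → EuclideanSpace ℝ (Fin d))
    (l u : Fin n → ℝ) (hlu : ∀ i, l i ≤ u i) (hw : ∀ i, 0 < width C (a i))
    (hcov : ∀ x ∈ C, ∃ i, l i ≤ inner ℝ (a i) x ∧ inner ℝ (a i) x ≤ u i) :
    1 / (60 * ((d : ℝ) * Real.log (2 * d)) ^ (1 / 3 : ℝ))
      ≤ ∑ i, (u i - l i) / width C (a i) := by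
  have hatt : ∀ i, ∃ p ∈ C, ∃ q ∈ C, width C (a i) = inner ℝ (a i) (p - q) := fun i => by
    have h1 : {r : ℝ | ∃ p ∈ C, ∃ q ∈ C, r = inner ℝ (a i) (p - q)}
        = (fun z : EuclideanSpace ℝ (Fin d) × EuclideanSpace ℝ (Fin d) =>
          inner ℝ (a i) (z.1 - z.2)) '' (C ×ˢ C) := by
      ext r
      constructor
      · rintro ⟨p, hp, q, hq, rfl⟩
        exact ⟨(p, q), ⟨hp, hq⟩, rfl⟩
      · rintro ⟨z, hz, rfl⟩
        exact ⟨z.1, hz.1, z.2, hz.2, rfl⟩
    have h2 : IsCompact {r : ℝ | ∃ p ∈ C, ∃ q ∈ C, r = inner ℝ (a i) (p - q)} := by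
      rw [h1]
      exact (hC.prod hC).image (by fun_prop)
    obtain ⟨x, hx⟩ := hne
    exact h2.sSup_mem ⟨_, x, hx, x, hx, rfl⟩
  choose p hp q hq hpq using hatt
  have hd' : (1 : ℝ) ≤ d := by exact_mod_cast hd
  have hl2 := Real.log_two_gt_d9
  have hlog : Real.log 2 ≤ Real.log (2 * d) := Real.log_le_log (by norm_num) (by linarith)
  have hX : 0 < (d : ℝ) * Real.log (2 * d) := mul_pos (by linarith) (by linarith)
  set y := ((d : ℝ) * Real.log (2 * d)) ^ (1 / 3 : ℝ) with hy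
  have hy0 : 0 < y := Real.rpow_pos_of_pos hX _
  have hy3 : y ^ 3 = d * Real.log (2 * d) := by
    rw [hy, ← Real.rpow_natCast, ← Real.rpow_mul hX.le]
    norm_num
  have hL : (Nat.clog 2 d : ℝ) * Real.log 2 ≤ Real.log (2 * d) := by
    have h1 : 2 ^ Nat.clog 2 d ≤ 2 * d := by
      rcases Nat.eq_or_lt_of_le hd with h | h
      · rw [← h]; simp
      · have h2 := Nat.pow_pred_clog_lt_self (b := 2) (by norm_num) h
        have h3 := Nat.clog_pos (b := 2) (by norm_num) h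
        obtain ⟨k, hk⟩ := Nat.exists_eq_succ_of_ne_zero h3.ne'
        rw [hk] at h2 ⊢
        rw [Nat.pred_succ] at h2
        rw [pow_succ]
        omega
    rw [← Real.log_pow]
    exact Real.log_le_log (by positivity) (by exact_mod_cast h1)
  have key := plank_bound C hc hne (fun i => (innerSL ℝ (a i)).toLinearMap) l u hlu p q hp hq
    (fun i => (hw i).trans_eq (hpq i)) hcov d (Nat.clog 2 d) (by simp) hd
    (Nat.le_pow_clog (by norm_num) d) (1 / (30 * y)) (by positivity) (by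
      have h1 : 2 * (Nat.clog 2 d : ℝ) + 4 ≤ 9 * Real.log (2 * d) := by
        have h0 : (0 : ℝ) ≤ Nat.clog 2 d := Nat.cast_nonneg _
        nlinarith
      have h2 : 2560 * (1 / (30 * y)) ^ 3 * d * (9 * Real.log (2 * d)) = 23040 / 27000 := by
        have h3 : Real.log (2 * d) ≠ 0 := by linarith
        rw [div_pow, mul_pow, hy3]
        generalize Real.log (2 * d) = g at h3
        field_simp
        norm_num
      have h4 := mul_le_mul_of_nonneg_left h1
        (by positivity : 0 ≤ 2560 * (1 / (30 * y)) ^ 3 * d)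
      linarith)
  refine le_trans (le_of_eq ?_) (key.trans (le_of_eq ?_))
  · field_simp
    norm_num
  · exact Finset.sum_congr rfl fun i _ => by rw [hpq i]; rfl

end Pool.Agent.Variants.MP_70b2ae_gt.CubeRoot
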