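import Mathlib
import Pool.Agent.Lib.MP_70b2ae_gt.Good

namespace Pool.Agent.Variants.MP_70b2ae_gt.MinkowskiSums

open Pointwise Pool.Agent.Lib.MP_70b2ae_gt

/-- The slicing statement holds for every Minkowski sum of a centrally symmetric compact convex
set and finitely many convex sets whose difference sets are ellipsoids. -/
theorem result (d k : ℕ) (S : Set (EuclideanSpace ℝ (Fin d))) (c : EuclideanSpace ℝ (Fin d))
    (hS : IsCompact S) (hne : S.Nonempty) (hSc : Convex ℝ S) (hsym : ∀ x ∈ S, c + c - x ∈ S)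
    (W : Fin k → Set (EuclideanSpace ℝ (Fin d)))
    (T : Fin k → EuclideanSpace ℝ (Fin d) →L[ℝ] EuclideanSpace ℝ (Fin d))
    (hWc : ∀ j, Convex ℝ (W j)) (hW : ∀ j, W j - W j = T j '' Metric.closedBall 0 1)
    (C : Set (EuclideanSpace ℝ (Fin d))) (hC : C = S + ∑ j, W j) :
    ∀ m : ℕ, ∀ a : Fin m → EuclideanSpace ℝ (Fin d), ∀ b : Fin m → ℝ,
      ∃ σ : Fin m → Bool, ∃ t : EuclideanSpace ℝ (Fin d),
        ∀ x ∈ C,
          t + (1 / ((m : ℝ) + 1)) • x ∈ C ∧
          ∀ i : Fin m,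
            (σ i = true → inner ℝ (a i) (t + (1 / ((m : ℝ) + 1)) • x) ≤ b i) ∧
            (σ i = false → b i ≤ inner ℝ (a i) (t + (1 / ((m : ℝ) + 1)) • x)) := by
  have hG : Good C := hC ▸ (good_symm hS hne hSc c hsym).add
    (good_sum W fun j => good_ellipsoid (hWc j) (T j) (hW j))
  have hWne : ∀ j, (W j).Nonempty := fun j => by
    have : T j 0 ∈ W j - W j := hW j ▸ ⟨0, by simp, rfl⟩
    obtain ⟨p, hp, -⟩ := this
    exact ⟨p, hp⟩
  have hCne : C.Nonempty := hC ▸ hne.add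
    (Finset.sum_induction W Set.Nonempty (fun _ _ => Set.Nonempty.add) Set.zero_nonempty
      fun j _ => hWne j)
  have hCc : Convex ℝ C := hC ▸ hSc.add (convex_sum W fun j _ => hWc j)
  exact fun m a b => hG.slice hCne hCc m a b

end Pool.Agent.Variants.MP_70b2ae_gt.MinkowskiSums
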