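import Mathlib
import Pool.Agent.Lib.MP_70b2ae_gt.Plane

namespace Pool.Agent.Variants.MP_70b2ae_gt.Planar

open Pool.Agent.Lib.MP_70b2ae_gt

/-- The width of `C` along the functional `x ↦ ⟪a, x⟫`: the largest value of `⟪a, p - q⟫` for
points `p`, `q` of `C`. -/
noncomputable def width (C : Set (EuclideanSpace ℝ (Fin 2))) (a : EuclideanSpace ℝ (Fin 2)) : ℝ :=
  sSup {r : ℝ | ∃ p ∈ C, ∃ q ∈ C, r = inner ℝ a (p - q)}

/-- If planks `l i ≤ ⟪a i, x⟫ ≤ u i` cover a planar compact convex set `C`, then the sum of their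
relative widths is at least `4√3 - 6`. -/
theorem result (C : Set (EuclideanSpace ℝ (Fin 2))) (hC : IsCompact C) (hc : Convex ℝ C)
    (hne : C.Nonempty) (n : ℕ) (a : Fin n → EuclideanSpace ℝ (Fin 2)) (l u : Fin n → ℝ)
    (hlu : ∀ i, l i ≤ u i) (hw : ∀ i, 0 < width C (a i))
    (hcov : ∀ x ∈ C, ∃ i, l i ≤ inner ℝ (a i) x ∧ inner ℝ (a i) x ≤ u i) :
    4 * Real.sqrt 3 - 6 ≤ ∑ i, (u i - l i) / width C (a i) := by
  have hr : Real.sqrt 3 ^ 2 = 3 := Real.sq_sqrt (by norm_num)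
  have hr0 : 0 < Real.sqrt 3 := Real.sqrt_pos.2 (by norm_num)
  generalize Real.sqrt 3 = r at hr hr0
  obtain ⟨h, H, hh⟩ := plane_LB hr hr0 hC hc hne a
  have hW : ∀ i, width C (a i) ≤ 2 * h (a i) := fun i => by
    obtain ⟨x, hx⟩ := hne
    refine csSup_le ⟨_, x, hx, x, hx, rfl⟩ ?_
    rintro _ ⟨p, hp, q, hq, rfl⟩
    exact hh i p hp q hq
  have hpos : ∀ i, 0 < h (a i) := fun i => by linarith [hW i, hw i]
  have hκ : 0 < (2 * r + 3) / 6 := by positivity
  have hκ1 : (2 * r + 3) / 6 * (4 * r - 6) = 1 := by linear_combination (4 / 3) * hr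
  generalize (2 * r + 3) / 6 = κ at H hκ hκ1
  by_contra hlt
  push Not at hlt
  set S := ∑ i, (u i - l i) / width C (a i) with hS
  have h1 : 0 < 1 - κ * S := by nlinarith
  have h2 : ∀ i, 0 ≤ (u i - l i) / width C (a i) := fun i =>
    div_nonneg (sub_nonneg.2 (hlu i)) (hw i).le
  have hδ : 0 < (1 - κ * S) / (n + 1) := by positivity
  obtain ⟨x, hx, h3⟩ := H.plank hκ a
    (fun i => κ * ((u i - l i) / width C (a i)) + (1 - κ * S) / (n + 1))
    (fun i => (l i + u i) / 2) hpos (fun i => by have := h2 i; positivity) (by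
      rw [Finset.sum_add_distrib, ← Finset.mul_sum, ← hS]
      simp only [Finset.sum_const, Finset.card_univ, Fintype.card_fin, nsmul_eq_mul]
      have : (n : ℝ) * ((1 - κ * S) / (n + 1)) + (1 - κ * S) / (n + 1) = 1 - κ * S := by
        field_simp
      linarith)
  obtain ⟨i, h4, h5⟩ := hcov x hx
  have h6 : |inner ℝ (a i) x - (l i + u i) / 2| ≤ (u i - l i) / 2 :=
    abs_le.2 ⟨by linarith, by linarith⟩
  have h7 := (h3 i).trans (mul_le_mul_of_nonneg_left h6 hκ.le)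
  have h8 : (u i - l i) / width C (a i) * width C (a i) = u i - l i := div_mul_cancel₀ _ (hw i).ne'
  have h9 := mul_le_mul_of_nonneg_left (hW i) (mul_nonneg hκ.le (h2 i))
  have h10 := mul_pos hδ (hpos i)
  rw [mul_assoc, h8] at h9
  nlinarith

end Pool.Agent.Variants.MP_70b2ae_gt.Planar
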