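import Pool.Agent.Lib.MP_70b2ae_gt.H8Body

set_option autoImplicit false

namespace Pool.Agent.Variants.MP_70b2ae_gt.SubPolynomialLoss

/-- For every `ε > 0` there is `c > 0` such that in every dimension, for every convex body `C`
and any `m` hyperplanes, some closed piece of `C` cut out by choosing a side of each hyperplane
contains a translate of `C` scaled by `c / (m + 1) ^ (1 + ε)`. -/
theorem result :
    ∀ ε : ℝ, 0 < ε → ∃ c : ℝ, 0 < c ∧
    ∀ d : ℕ, ∀ C : Set (EuclideanSpace ℝ (Fin d)),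
      IsCompact C → Convex ℝ C → (interior C).Nonempty →
    ∀ m : ℕ, ∀ a : Fin m → EuclideanSpace ℝ (Fin d), ∀ b : Fin m → ℝ,
      (∀ i, a i ≠ 0) →
      ∃ σ : Fin m → Bool, ∃ t : EuclideanSpace ℝ (Fin d),
        ∀ x ∈ C,
          t + (c / ((m : ℝ) + 1) ^ (1 + ε)) • x ∈ C ∧
          ∀ i : Fin m,
            (σ i = true → inner ℝ (a i) (t + (c / ((m : ℝ) + 1) ^ (1 + ε)) • x) ≤ b i) ∧
            (σ i = false → b i ≤ inner ℝ (a i) (t + (c / ((m : ℝ) + 1) ^ (1 + ε)) • x)) :=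
  fun _ hε => Pool.Agent.Lib.MP_70b2ae_gt.H8.body_thm hε

end Pool.Agent.Variants.MP_70b2ae_gt.SubPolynomialLoss
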